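import Pool.Agent.helper44.EX.Spec

/-!
# Project ex: VIS
-/

set_option autoImplicit false

open Complex Metric Set Filter Topology MeasureTheory Pool.Agent.helper98.ILF

noncomputable section

namespace EX

theorem VIS : VIS_stmt := by
  intro n l c ψ V U hl hψ h0 hV hU
  have hmem : (0 : ℂ) ∈ ψ '' ball (0 : ℂ) 1 := ⟨0, mem_ball_self one_pos, h0⟩
  have hpre : IsPreconnected (ψ '' ball (0 : ℂ) 1) :=
    ((convex_ball (0 : ℂ) 1).isPreconnected).image ψ hψ
  have hsub : ψ '' ball (0 : ℂ) 1 ⊆ {z | (ff n c)^[l] z ∈ V} := by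
    rintro _ ⟨u, hu, rfl⟩
    exact hV u hu
  exact (hpre.subset_connectedComponentIn hmem hsub).trans (hU l hl)

end EX
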